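import Pool.Agent.Helper28.TP.Curv

/-!
# Restricted projections onto tangent hyperplanes of the sphere

Let `n ≥ 4` and let `S` be a `C²` submanifold of dimension `n - 2` of the unit sphere of `ℝⁿ` whose sectional curvatures
are all greater than `1`. For every analytic set `Z` and for almost every `x` in `S`, with respect to the Hausdorff
measure of dimension `n - 2`, the orthogonal projection of `Z` onto the hyperplane orthogonal to `x` has
dimension `min (dim Z) (n - 1)`.
-/

open MeasureTheory Measure Set Metric Filter Topology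
open scoped ENNReal NNReal RealInnerProductSpace

namespace Pool.Agent.Results.MP_c56c8e_an.TangentProjections

/-- Euclidean space of dimension `n` -/
abbrev Eu (n : ℕ) := EuclideanSpace ℝ (Fin n)

section Definitions

variable {P E : Type*} [NormedAddCommGroup P] [NormedSpace ℝ P] [NormedAddCommGroup E] [InnerProductSpace ℝ E]
  [FiniteDimensional ℝ E]

/-- `ψ` is a `C²` parametrisation, on the open subset `U` of the parameter space `P`, of a relatively open part
of `S`: an injective immersion that maps open subsets of `U` to relatively open subsets of `S`. -/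
structure IsPatch (S : Set E) (U : Set P) (ψ : P → E) : Prop where
  isOpen : IsOpen U
  contDiffOn : ContDiffOn ℝ 2 ψ U
  immersion : ∀ u ∈ U, Function.Injective (fderiv ℝ ψ u)
  injOn : InjOn ψ U
  image_open : ∀ V ⊆ U, IsOpen V → ∃ O : Set E, IsOpen O ∧ ψ '' V = O ∩ S

/-- `S` is a `C²` submanifold of `E` modelled on `P`. -/
def IsC2Submanifold (P : Type*) [NormedAddCommGroup P] [NormedSpace ℝ P] (S : Set E) : Prop :=
  ∀ x ∈ S, ∃ (U : Set P) (ψ : P → E), IsPatch S U ψ ∧ x ∈ ψ '' U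

/-- The tangent space at `ψ u`, the range of the first derivative. -/
noncomputable def tangentSpace (ψ : P → E) (u : P) : Submodule ℝ E := (fderiv ℝ ψ u).range

/-- The component of `v` orthogonal to the subspace `V`. -/
noncomputable def normalPart (V : Submodule ℝ E) (v : E) : E := Vᗮ.starProjection v

/-- The second derivative `D²ψ(u)(a, b)`: the derivative in the direction `a` of the derivative in the direction `b`. -/
noncomputable def secondDeriv (ψ : P → E) (u a b : P) : E := fderiv ℝ (fun v => fderiv ℝ ψ v b) u a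

/-- The second fundamental form, in `E`, of the immersion `ψ` at `u`: the component of the second
derivative orthogonal to the tangent space. -/
noncomputable def secondForm (ψ : P → E) (u a b : P) : E :=
  normalPart (tangentSpace ψ u) (secondDeriv ψ u a b)

/-- The sectional curvature, at `ψ u`, of the metric induced from `E` for the plane spanned by the tangent vectors
`Dψ(u) a` and `Dψ(u) b`, given by the equation of Gauss. -/
noncomputable def sectionalCurvature (ψ : P → E) (u a b : P) : ℝ :=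
  (⟪secondForm ψ u a a, secondForm ψ u b b⟫ - ‖secondForm ψ u a b‖ ^ 2) /
    (‖fderiv ℝ ψ u a‖ ^ 2 * ‖fderiv ℝ ψ u b‖ ^ 2 - ⟪fderiv ℝ ψ u a, fderiv ℝ ψ u b⟫ ^ 2)

/-- All sectional curvatures of `S` are greater than one. -/
def CurvatureGTOne (P : Type*) [NormedAddCommGroup P] [NormedSpace ℝ P] (S : Set E) : Prop :=
  ∀ (U : Set P) (ψ : P → E), IsPatch S U ψ → ∀ u ∈ U, ∀ a b : P, LinearIndependent ℝ ![a, b] →
    1 < sectionalCurvature ψ u a b

/-- The hyperplane orthogonal to `x`: the tangent hyperplane of the unit sphere at `x`. -/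
noncomputable def tangentHyperplane (x : E) : Submodule ℝ E := (ℝ ∙ x)ᗮ

/-- The Hausdorff dimension of the orthogonal projection of `Z` to the subspace `V`. -/
noncomputable def projDim (Z : Set E) (V : Submodule ℝ E) : ℝ≥0∞ :=
  dimH (V.orthogonalProjectionOnto '' Z)

/-- The points `x` of `S` for which the dimension of the projection of `Z` to the tangent hyperplane of the sphere
at `x` is not `min (dim Z) m`. -/
def exceptionalSet (Z S : Set E) (m : ℝ≥0∞) : Set E :=
  {x | x ∈ S ∧ projDim Z (tangentHyperplane x) ≠ min (dimH Z) m}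

end Definitions

/-- The local statement. -/
lemma local_null (n : ℕ) (hn : 4 ≤ n) (Z : Set (Eu n)) (hZ : AnalyticSet Z) (S : Set (Eu n))
    (hS : ∀ x ∈ S, ‖x‖ = 1) (hcurv : CurvatureGTOne (Eu (n - 2)) S) (U : Set (Eu (n - 2))) (ψ : Eu (n - 2) → Eu n)
    (hp : IsPatch S U ψ) (u₀ : Eu (n - 2)) (hu₀ : u₀ ∈ U) (B : Set (Eu n))
    (hB : B = exceptionalSet Z S ((n - 1 : ℕ) : ℝ≥0∞)) :
    ∃ O ∈ 𝓝 (ψ u₀), μH[((n - 2 : ℕ) : ℝ)] (O ∩ B) = 0 := by
  classical
  have hU := hp.isOpen
  have hψ := hp.contDiffOn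
  -- the image lies in `S`
  have hUS : ∀ u ∈ U, ψ u ∈ S := by
    obtain ⟨O, _, hO2⟩ := hp.image_open U subset_rfl hU
    intro u hu
    have : ψ u ∈ O ∩ S := hO2 ▸ mem_image_of_mem ψ hu
    exact this.2
  have hnorm : ∀ u ∈ U, ‖ψ u‖ = 1 := fun u hu => hS _ (hUS u hu)
  have hfin : Module.finrank ℝ (Eu (n - 2)) = (n - 4) + 2 := by
    rw [finrank_euclideanSpace, Fintype.card_fin]
    omega
  obtain ⟨hrel1, hrel2⟩ := Pool.Agent.Helper28.TP.sphere_rel hU hψ hnorm
  have hHaar : (μH[((n - 2 : ℕ) : ℝ)] : Measure (Eu (n - 2))).IsAddHaarMeasure := by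
    have := isAddHaarMeasure_hausdorffMeasure (E := Eu (n - 2))
    rwa [finrank_euclideanSpace, Fintype.card_fin] at this
  set vol : Measure (Eu (n - 2)) := μH[((n - 2 : ℕ) : ℝ)] with hvol
  obtain ⟨r, hr, hrU, C, hC, hbound⟩ := Pool.Agent.Helper28.TP.sublevel vol hfin hU hψ u₀ hu₀ (by
    intro ω hω1 hω2 hω3
    refine Pool.Agent.Helper28.TP.definite_of_curv (P := Eu (n - 2)) (E := Eu n) ?_ ?_ (fderiv ℝ ψ u₀)
      (hp.immersion u₀ hu₀) (fderiv ℝ (fderiv ℝ ψ) u₀) (ψ u₀) ω (hnorm u₀ hu₀) hω1 hω2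
      (hrel1 u₀ hu₀) hω3 (hrel2 u₀ hu₀) ?_
    · simp only [finrank_euclideanSpace, Fintype.card_fin]
      omega
    · rw [finrank_euclideanSpace, Fintype.card_fin]
      omega
    · have hsd : ∀ a b : Eu (n - 2), secondDeriv ψ u₀ a b = fderiv ℝ (fderiv ℝ ψ) u₀ a b := by
        intro a b
        have h1 : DifferentiableAt ℝ (fderiv ℝ ψ) u₀ :=
          ((hψ.fderiv_of_isOpen hU (by norm_num : (1 : WithTop ℕ∞) + 1 ≤ 2)).contDiffAt
            (hU.mem_nhds hu₀)).differentiableAt (by norm_num)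
        have h2 := (h1.hasFDerivAt.clm_apply (hasFDerivAt_const b u₀)).fderiv
        unfold secondDeriv
        rw [h2]
        simp
      intro a b hab
      have h3 := hcurv U ψ hp u₀ hu₀ a b hab
      unfold sectionalCurvature secondForm at h3
      rw [hsd, hsd, hsd] at h3
      exact h3)
  obtain ⟨C₁, hC₁, hdec⟩ := Pool.Agent.Helper28.TP.layer vol hU hψ u₀ hrU hC
    (fun ω hω ε hε => hbound ω (by simpa using hω) hω ε hε)
  set ψ' : Eu (n - 2) → Eu n := (closedBall u₀ r).piecewise ψ (fun _ => 0) with hψ'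
  have hψ'm : Measurable ψ' :=
    ContinuousOn.measurable_piecewise (hψ.continuousOn.mono hrU) continuousOn_const measurableSet_closedBall
  have hψ'eq : ∀ u ∈ closedBall u₀ r, ψ' u = ψ u := fun u hu => piecewise_eq_of_mem _ _ _ hu
  have hae := Pool.Agent.Helper28.TP.lower_ae (vol.restrict (closedBall u₀ r)) ψ' hψ'm
    ((ae_restrict_iff' measurableSet_closedBall).2 (Eventually.of_forall fun u hu => by
      rw [hψ'eq u hu]
      exact hnorm u (hrU hu))) C₁ hC₁ (fun ξ => by
      refine le_trans (le_of_eq ?_) (hdec ξ)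
      refine setLIntegral_congr_fun measurableSet_closedBall fun u hu => ?_
      rw [hψ'eq u hu]) Z hZ
  rw [ae_restrict_iff' measurableSet_closedBall] at hae
  -- the Lipschitz neighbourhood
  obtain ⟨L, t, ht, hL⟩ := ((hψ.contDiffAt (hU.mem_nhds hu₀)).of_le
    (by norm_num : (1 : WithTop ℕ∞) ≤ 2)).exists_lipschitzOnWith
  obtain ⟨δ, hδ, hδt⟩ := Metric.mem_nhds_iff.1 ht
  set V : Set (Eu (n - 2)) := ball u₀ (min δ r) with hV
  have hVt : V ⊆ t := (ball_subset_ball (min_le_left _ _)).trans hδt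
  have hVr : V ⊆ closedBall u₀ r := (ball_subset_ball (min_le_right _ _)).trans ball_subset_closedBall
  have hVU : V ⊆ U := hVr.trans hrU
  obtain ⟨O, hO, hOV⟩ := hp.image_open V hVU isOpen_ball
  have hu₀V : u₀ ∈ V := mem_ball_self (lt_min hδ hr)
  have hu₀O : ψ u₀ ∈ O := by
    have : ψ u₀ ∈ O ∩ S := hOV ▸ mem_image_of_mem ψ hu₀V
    exact this.1
  refine ⟨O, hO.mem_nhds hu₀O, ?_⟩
  set N : Set (Eu (n - 2)) := {u | u ∈ V ∧ projDim Z (tangentHyperplane (ψ u)) ≠ min (dimH Z) ((n - 1 : ℕ) : ℝ≥0∞)} with hN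
  have hN0 : vol N = 0 := by
    refine measure_mono_null (fun u hu => ?_) hae
    intro hcon
    have h1 := hcon (hVr hu.1)
    rw [hψ'eq u (hVr hu.1)] at h1
    exact hu.2 h1
  have hsub : O ∩ B ⊆ ψ '' N := by
    intro x hx
    rw [hB] at hx
    obtain ⟨hxO, hxS, hx2⟩ := hx
    have : x ∈ ψ '' V := hOV ▸ ⟨hxO, hxS⟩
    obtain ⟨u, hu, rfl⟩ := this
    exact ⟨u, ⟨hu, hx2⟩, rfl⟩
  have hLN : LipschitzOnWith L ψ N := hL.mono fun u hu => hVt hu.1
  have h1 := hLN.hausdorffMeasure_image_le (d := ((n - 2 : ℕ) : ℝ)) (by positivity)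
  rw [← hvol, hN0, mul_zero] at h1
  exact measure_mono_null hsub (le_antisymm h1 zero_le)

/-- **Theorem.** The full answer to the question, for every `n ≥ 4`. -/
theorem result (n : ℕ) (hn : 4 ≤ n) (Z : Set (Eu n)) (hZ : AnalyticSet Z) (S : Set (Eu n))
    (hS : ∀ x ∈ S, ‖x‖ = 1) (hman : IsC2Submanifold (Eu (n - 2)) S) (hcurv : CurvatureGTOne (Eu (n - 2)) S) :
    μH[(n : ℝ) - 2] (exceptionalSet Z S ((n : ℝ≥0∞) - 1)) = 0 := by
  have e1 : (n : ℝ) - 2 = ((n - 2 : ℕ) : ℝ) := by
    rw [Nat.cast_sub (by omega)]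
    norm_num
  have e2 : (n : ℝ≥0∞) - 1 = ((n - 1 : ℕ) : ℝ≥0∞) := by
    rw [ENNReal.natCast_sub]
    norm_num
  rw [e1, e2]
  refine measure_null_of_locally_null _ fun x hx => ?_
  obtain ⟨U, ψ, hp, u₀, hu₀, hux⟩ := hman x hx.1
  obtain ⟨O, hO, h0⟩ := local_null n hn Z hZ S hS hcurv U ψ hp u₀ hu₀ _ rfl
  rw [hux] at hO
  exact ⟨_, inter_mem (mem_nhdsWithin_of_mem_nhds hO) self_mem_nhdsWithin, h0⟩

end Pool.Agent.Results.MP_c56c8e_an.TangentProjections
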